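import Mathlib

open Filter Topology

namespace Pool.Agent.Results.MP_e47ff0_co.TensorPowerBlowup

/-- The number of injective maps `V → W` sending edges of `F` to edges of `G`. -/
noncomputable def emb {V W : Type*} (F : SimpleGraph V) (G : SimpleGraph W) : ℕ :=
  Nat.card {f : V → W // Function.Injective f ∧ ∀ a b, F.Adj a b → G.Adj (f a) (f b)}

/-- `s_p(F,G) = emb(F,G) / (n(n-1)...(n-|F|+1) p^{e(F)})`, for `F` on `k` and `G` on `n` vertices. -/
noncomputable def s {k n : ℕ} (p : ℝ) (F : SimpleGraph (Fin k)) (G : SimpleGraph (Fin n)) : ℝ :=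
  (emb F G : ℝ) / ((n.descFactorial k : ℝ) * p ^ (Nat.card F.edgeSet))

/-- The number of all maps sending edges to edges. -/
noncomputable def hom {V W : Type*} (F : SimpleGraph V) (G : SimpleGraph W) : ℕ :=
  Nat.card {f : V → W // ∀ a b, F.Adj a b → G.Adj (f a) (f b)}

/-- Categorical power of a complete graph. -/
def T (ι α : Type*) [Nonempty ι] : SimpleGraph (ι → α) where
  Adj x y := ∀ i, x i ≠ y i
  symm := ⟨fun _ _ h i => (h i).symm⟩
  loopless := ⟨fun _ h => h (Classical.arbitrary ι) rfl⟩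

lemma hom_T {V ι α : Type*} [Nonempty ι] [Fintype ι] [Finite V] [Finite α]
    (F : SimpleGraph V) :
    hom F (T ι α) = (hom F (⊤ : SimpleGraph α)) ^ (Fintype.card ι) := by
  classical
  unfold hom
  have e : {f : V → (ι → α) // ∀ a b, F.Adj a b → (T ι α).Adj (f a) (f b)} ≃
      (ι → {f : V → α // ∀ a b, F.Adj a b → (⊤ : SimpleGraph α).Adj (f a) (f b)}) :=
    { toFun := fun f i => ⟨fun v => f.1 v i, fun a b hab => (f.2 a b hab) i⟩
      invFun := fun g => ⟨fun v i => (g i).1 v, fun a b hab i => (g i).2 a b hab⟩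
      left_inv := fun f => rfl
      right_inv := fun g => rfl }
  rw [Nat.card_congr e, Nat.card_fun, Nat.card_eq_fintype_card (α := ι)]

section counting

variable {V α : Type*} [Fintype V] [DecidableEq V] [Fintype α] [DecidableEq α]

omit [Fintype V] [DecidableEq α] in
lemma card_aux (P : (V → α) → Prop) (c d : V) (hcd : c ≠ d)
    (hP : ∀ g x, P (Function.update g d x) ↔ P g) :
    Nat.card {g : V → α // P g ∧ g c = g d} * Fintype.card α = Nat.card {g : V → α // P g} := by
  classical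
  rw [← Nat.card_eq_fintype_card, ← Nat.card_prod]
  refine Nat.card_congr
    { toFun := fun q => ⟨Function.update q.1.1 d q.2, (hP _ _).2 q.1.2.1⟩
      invFun := fun f => (⟨Function.update f.1 d (f.1 c), (hP _ _).2 f.2, by
        simp [Function.update_of_ne hcd]⟩, f.1 d)
      left_inv := ?_
      right_inv := ?_ }
  · rintro ⟨⟨g, hg1, hg2⟩, x⟩
    simp [Function.update_of_ne hcd, hg2]
  · rintro ⟨f, hf⟩
    simp

omit [DecidableEq α] in
lemma card_mono1 (e : Sym2 V) (he : ¬ e.IsDiag) :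
    Nat.card {g : V → α // (e.map g).IsDiag} * Fintype.card α
      = Fintype.card α ^ Fintype.card V := by
  induction e using Sym2.ind with
  | _ a b =>
    have hab : a ≠ b := by simpa using he
    have h := card_aux (V := V) (α := α) (fun _ => True) a b hab (fun _ _ => Iff.rfl)
    have h1 : Nat.card {g : V → α // True} = Fintype.card α ^ Fintype.card V := by
      rw [Nat.card_congr (Equiv.subtypeUnivEquiv (fun _ => trivial))]
      simp
    rw [h1] at h
    rw [← h]
    congr 1
    refine Nat.card_congr (Equiv.subtypeEquivRight fun g => ?_)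
    simp

omit [DecidableEq α] in
lemma card_mono2 (e f : Sym2 V) (he : ¬ e.IsDiag) (hf : ¬ f.IsDiag) (hef : e ≠ f) :
    Nat.card {g : V → α // (e.map g).IsDiag ∧ (f.map g).IsDiag} * Fintype.card α ^ 2
      = Fintype.card α ^ Fintype.card V := by
  induction e using Sym2.ind with
  | _ a b =>
  induction f using Sym2.ind with
  | _ c d =>
    have hab : a ≠ b := by simpa using he
    have hcd : c ≠ d := by simpa using hf
    have key : ∀ c d : V, c ≠ d → d ≠ a → d ≠ b →
        Nat.card {g : V → α // (Sym2.map g s(a, b)).IsDiag ∧ g c = g d} * Fintype.card α ^ 2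
        = Fintype.card α ^ Fintype.card V := by
      intro c d hcd hda hdb
      have h := card_aux (V := V) (α := α) (fun g => (Sym2.map g s(a, b)).IsDiag) c d hcd (by
        intro g x
        simp [Function.update_of_ne hda.symm, Function.update_of_ne hdb.symm])
      rw [pow_two, ← mul_assoc, h]
      exact card_mono1 s(a, b) he
    by_cases hd : d ≠ a ∧ d ≠ b
    · rw [← key c d hcd hd.1 hd.2]
      congr 1
    · by_cases hc : c ≠ a ∧ c ≠ b
      · rw [← key d c hcd.symm hc.1 hc.2]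
        congr 1
        refine Nat.card_congr (Equiv.subtypeEquivRight fun g => ?_)
        simp [eq_comm]
      · exfalso
        apply hef
        rw [Sym2.eq_iff]
        by_cases h1 : d = a
        · subst h1
          by_cases h2 : c = b
          · subst h2; right; exact ⟨rfl, rfl⟩
          · exact absurd ⟨hcd, h2⟩ hc
        · have h3 : d = b := by
            by_contra h4
            exact hd ⟨h1, h4⟩
          subst h3
          by_cases h2 : c = a
          · subst h2; left; exact ⟨rfl, rfl⟩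
          · exact absurd ⟨h2, hcd⟩ hc

omit [DecidableEq V] [DecidableEq α] in
lemma hom_top_le (F : SimpleGraph V) [Nonempty α] :
    (hom F (⊤ : SimpleGraph α) : ℝ) ≤ (Fintype.card α : ℝ) ^ (Fintype.card V) *
      (1 - (Nat.card F.edgeSet : ℝ) * (1 / (Fintype.card α : ℝ)) +
        (Nat.card F.edgeSet : ℝ) * ((Nat.card F.edgeSet : ℝ) - 1) / 2 *
          (1 / (Fintype.card α : ℝ)) ^ 2) := by
  classical
  set m : ℝ := (Fintype.card α : ℝ) with hm
  have hmpos : 0 < m := by
    have : 0 < Fintype.card α := Fintype.card_pos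
    simpa [hm] using this
  set E : Finset (Sym2 V) := F.edgeFinset with hE
  have hcardE : Nat.card F.edgeSet = E.card := by
    rw [Nat.card_eq_fintype_card, ← SimpleGraph.edgeFinset_card]
  rw [hcardE]
  have hnd : ∀ e ∈ E, ¬ e.IsDiag := by
    intro e he
    rw [hE, SimpleGraph.mem_edgeFinset] at he
    exact F.not_isDiag_of_mem_edgeSet he
  -- indicator
  have hone : ∀ e ∈ E, ∑ g : V → α, (if (e.map g).IsDiag then (1 : ℝ) else 0)
      = m ^ (Fintype.card V) * (1 / m) := by
    intro e he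
    have h := card_mono1 (α := α) e (hnd e he)
    have h2 : (∑ g : V → α, (if (e.map g).IsDiag then (1 : ℝ) else 0))
        = (Nat.card {g : V → α // (e.map g).IsDiag} : ℝ) := by
      rw [Nat.card_eq_fintype_card, Fintype.card_subtype]
      simp
    rw [h2]
    have h3 : (Nat.card {g : V → α // (e.map g).IsDiag} : ℝ) * m = m ^ (Fintype.card V) := by
      rw [hm]; exact_mod_cast h
    rw [← h3]; field_simp
  have htwo : ∀ e ∈ E, ∀ f ∈ E, e ≠ f →
      ∑ g : V → α, (if (e.map g).IsDiag then (1 : ℝ) else 0) *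
        (if (f.map g).IsDiag then (1 : ℝ) else 0)
      = m ^ (Fintype.card V) * (1 / m) ^ 2 := by
    intro e he f hf hef
    have h := card_mono2 (α := α) e f (hnd e he) (hnd f hf) hef
    have h2 : (∑ g : V → α, (if (e.map g).IsDiag then (1 : ℝ) else 0) *
        (if (f.map g).IsDiag then (1 : ℝ) else 0))
        = (Nat.card {g : V → α // (e.map g).IsDiag ∧ (f.map g).IsDiag} : ℝ) := by
      rw [Nat.card_eq_fintype_card, Fintype.card_subtype]
      rw [Finset.card_filter]
      push_cast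
      refine Finset.sum_congr rfl fun g _ => ?_
      by_cases h1 : (e.map g).IsDiag <;> by_cases h2 : (f.map g).IsDiag <;> simp [h1, h2]
    rw [h2]
    have h3 : (Nat.card {g : V → α // (e.map g).IsDiag ∧ (f.map g).IsDiag} : ℝ) * m ^ 2
        = m ^ (Fintype.card V) := by
      rw [hm]; exact_mod_cast h
    rw [← h3]; field_simp
  set x : (V → α) → ℝ := fun g => ∑ e ∈ E, (if (e.map g).IsDiag then (1 : ℝ) else 0) with hx
  have hxnat : ∀ g, ∃ k : ℕ, x g = k := by
    intro g
    refine ⟨(E.filter fun e => (e.map g).IsDiag).card, ?_⟩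
    simp [hx]
  have hpt : ∀ g : V → α, (if ∀ a b, F.Adj a b → (⊤ : SimpleGraph α).Adj (g a) (g b)
      then (1 : ℝ) else 0) ≤ 1 - 3 / 2 * x g + (x g) ^ 2 / 2 := by
    intro g
    split_ifs with hg
    · have : x g = 0 := by
        rw [hx]
        apply Finset.sum_eq_zero
        intro e he
        rw [if_neg]
        rw [hE, SimpleGraph.mem_edgeFinset] at he
        induction e using Sym2.ind with
        | _ a b =>
          have := hg a b he
          simpa using this
      rw [this]; norm_num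
    · obtain ⟨k, hk⟩ := hxnat g
      rw [hk]
      rcases k with _ | _ | k
      · norm_num
      · norm_num
      · push_cast
        nlinarith [sq_nonneg (k : ℝ), Nat.cast_nonneg (α := ℝ) k]
  have hhom : (hom F (⊤ : SimpleGraph α) : ℝ) =
      ∑ g : V → α, (if ∀ a b, F.Adj a b → (⊤ : SimpleGraph α).Adj (g a) (g b)
        then (1 : ℝ) else 0) := by
    unfold hom
    rw [Nat.card_eq_fintype_card, Fintype.card_subtype, Finset.card_filter]
    push_cast
    rfl
  have hsum1 : ∑ g : V → α, x g = (E.card : ℝ) * (m ^ (Fintype.card V) * (1 / m)) := by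
    rw [hx, Finset.sum_comm, Finset.sum_congr rfl hone]
    simp
  have hsum2 : ∑ g : V → α, (x g) ^ 2 =
      (E.card : ℝ) * (m ^ (Fintype.card V) * (1 / m)) +
      (E.card : ℝ) * ((E.card : ℝ) - 1) * (m ^ (Fintype.card V) * (1 / m) ^ 2) := by
    have h1 : ∀ g : V → α, (x g) ^ 2 = ∑ e ∈ E, ∑ f ∈ E,
        (if (e.map g).IsDiag then (1 : ℝ) else 0) *
        (if (f.map g).IsDiag then (1 : ℝ) else 0) := by
      intro g
      rw [pow_two, hx, Finset.sum_mul_sum]
    simp_rw [h1]
    rw [Finset.sum_comm]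
    have h2 : ∀ e ∈ E, ∑ g : V → α, ∑ f ∈ E,
        (if (e.map g).IsDiag then (1 : ℝ) else 0) *
        (if (f.map g).IsDiag then (1 : ℝ) else 0)
        = m ^ (Fintype.card V) * (1 / m) +
          ((E.card : ℝ) - 1) * (m ^ (Fintype.card V) * (1 / m) ^ 2) := by
      intro e he
      rw [Finset.sum_comm]
      rw [← Finset.add_sum_erase E _ he]
      have h3 : ∑ g : V → α, (if (e.map g).IsDiag then (1 : ℝ) else 0) *
        (if (e.map g).IsDiag then (1 : ℝ) else 0) = m ^ (Fintype.card V) * (1 / m) := by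
        rw [← hone e he]
        refine Finset.sum_congr rfl fun g _ => ?_
        split_ifs <;> simp
      rw [h3]
      congr 1
      rw [Finset.sum_congr rfl (fun f hf => htwo e he f (Finset.mem_of_mem_erase hf)
        (Finset.ne_of_mem_erase hf).symm)]
      rw [Finset.sum_const, Finset.card_erase_of_mem he, nsmul_eq_mul]
      have : 1 ≤ E.card := Finset.card_pos.2 ⟨e, he⟩
      push_cast [this]
      ring
    rw [Finset.sum_congr rfl h2, Finset.sum_const, nsmul_eq_mul]
    ring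
  rw [hhom]
  refine (Finset.sum_le_sum fun g _ => hpt g).trans ?_
  have : ∑ g : V → α, (1 - 3 / 2 * x g + (x g) ^ 2 / 2) =
      m ^ (Fintype.card V) - 3 / 2 * (∑ g : V → α, x g) + (∑ g : V → α, (x g) ^ 2) / 2 := by
    rw [Finset.sum_add_distrib, Finset.sum_sub_distrib, ← Finset.mul_sum, ← Finset.sum_div]
    congr 2
    simp [hm]
  rw [this, hsum1, hsum2]
  apply le_of_eq
  ring

end counting

/-! Exact counts for `K_3`, `K_2` and a bound for `C_4`. -/

lemma hom_K3 (m : ℕ) : hom (⊤ : SimpleGraph (Fin 3)) (⊤ : SimpleGraph (Fin m))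
    = m.descFactorial 3 := by
  classical
  have : hom (⊤ : SimpleGraph (Fin 3)) (⊤ : SimpleGraph (Fin m)) = Nat.card (Fin 3 ↪ Fin m) := by
    unfold hom
    refine Nat.card_congr
      { toFun := fun f => ⟨f.1, fun a b hab => by
          by_contra hne
          exact (f.2 a b hne) hab⟩
        invFun := fun f => ⟨f, fun a b hab h => hab (f.injective h)⟩
        left_inv := fun f => rfl
        right_inv := fun f => rfl }
  rw [this, Nat.card_eq_fintype_card, Fintype.card_embedding_eq]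
  simp

lemma hom_K2 (m : ℕ) : hom (⊤ : SimpleGraph (Fin 2)) (⊤ : SimpleGraph (Fin m))
    = m.descFactorial 2 := by
  classical
  have : hom (⊤ : SimpleGraph (Fin 2)) (⊤ : SimpleGraph (Fin m)) = Nat.card (Fin 2 ↪ Fin m) := by
    unfold hom
    refine Nat.card_congr
      { toFun := fun f => ⟨f.1, fun a b hab => by
          by_contra hne
          exact (f.2 a b hne) hab⟩
        invFun := fun f => ⟨f, fun a b hab h => hab (f.injective h)⟩
        left_inv := fun f => rfl
        right_inv := fun f => rfl }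
  rw [this, Nat.card_eq_fintype_card, Fintype.card_embedding_eq]
  simp

lemma hom_C4 (m : ℕ) : hom (SimpleGraph.cycleGraph 4) (⊤ : SimpleGraph (Fin m)) =
    ∑ a : Fin m, ∑ c : Fin m, (Nat.card {b : Fin m // b ≠ a ∧ b ≠ c}) ^ 2 := by
  classical
  have e : {f : Fin 4 → Fin m // ∀ a b, (SimpleGraph.cycleGraph 4).Adj a b →
      (⊤ : SimpleGraph (Fin m)).Adj (f a) (f b)} ≃
      (Σ ac : Fin m × Fin m, {b : Fin m // b ≠ ac.1 ∧ b ≠ ac.2} ×
        {b : Fin m // b ≠ ac.1 ∧ b ≠ ac.2}) :=
    { toFun := fun f => ⟨(f.1 0, f.1 2),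
        (⟨f.1 1, f.2 1 0 (by decide), f.2 1 2 (by decide)⟩,
         ⟨f.1 3, f.2 3 0 (by decide), f.2 3 2 (by decide)⟩)⟩
      invFun := fun q => ⟨![q.1.1, q.2.1.1, q.1.2, q.2.2.1], by
        obtain ⟨⟨a, c⟩, ⟨b, hb1, hb2⟩, ⟨d, hd1, hd2⟩⟩ := q
        simp only at hb1 hb2 hd1 hd2
        intro i j hij
        fin_cases i <;> fin_cases j <;>
          first
            | (exfalso; revert hij; decide)
            | (simp; first | exact hb1 | exact hb2 | exact hd1 | exact hd2
                           | exact hb1.symm | exact hb2.symm | exact hd1.symm | exact hd2.symm)⟩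
      left_inv := fun f => by
        apply Subtype.ext
        funext i
        fin_cases i <;> rfl
      right_inv := fun q => rfl }
  unfold hom
  rw [Nat.card_congr e, Nat.card_eq_fintype_card, Fintype.card_sigma, Fintype.sum_prod_type]
  refine Finset.sum_congr rfl fun a _ => Finset.sum_congr rfl fun c _ => ?_
  rw [Fintype.card_prod, Nat.card_eq_fintype_card, pow_two]

lemma card_ne_ne {m : ℕ} (a c : Fin m) :
    Nat.card {b : Fin m // b ≠ a ∧ b ≠ c} = if a = c then m - 1 else m - 2 := by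
  classical
  rw [Nat.card_eq_fintype_card, Fintype.card_subtype]
  have h : (Finset.univ.filter fun b : Fin m => b ≠ a ∧ b ≠ c)
      = (Finset.univ.erase a).erase c := by
    ext b
    simp [and_comm]
  rw [h]
  split_ifs with hac
  · subst hac
    simp
  · rw [Finset.card_erase_of_mem (by simp [Ne.symm hac]), Finset.card_erase_of_mem (by simp)]
    simp
    omega

lemma hom_C4_ge (m : ℕ) (hm : 2 ≤ m) :
    ((m : ℝ) - 1) ^ 4 ≤ (hom (SimpleGraph.cycleGraph 4) (⊤ : SimpleGraph (Fin m)) : ℝ) := by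
  classical
  rw [hom_C4]
  push_cast
  have h1 : ∀ a : Fin m, ∑ c : Fin m, ((Nat.card {b : Fin m // b ≠ a ∧ b ≠ c} : ℕ) : ℝ) ^ 2
      = ((m : ℝ) - 1) ^ 2 + ((m : ℝ) - 1) * ((m : ℝ) - 2) ^ 2 := by
    intro a
    have h2 : ∀ c : Fin m, ((Nat.card {b : Fin m // b ≠ a ∧ b ≠ c} : ℕ) : ℝ) ^ 2
        = ((m : ℝ) - 2) ^ 2 + (if a = c then (((m : ℝ) - 1) ^ 2 - ((m : ℝ) - 2) ^ 2) else 0) := by
      intro c
      rw [card_ne_ne]
      split_ifs
      · rw [Nat.cast_sub (by omega)]; push_cast; ring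
      · rw [Nat.cast_sub (by omega)]; push_cast; ring
    rw [Finset.sum_congr rfl fun c _ => h2 c, Finset.sum_add_distrib]
    simp
    ring
  rw [Finset.sum_congr rfl fun a _ => h1 a]
  simp
  have hm' : (2 : ℝ) ≤ m := by exact_mod_cast hm
  nlinarith [sq_nonneg ((m : ℝ) - 1), sq_nonneg ((m : ℝ) - 2)]

/-- Bonferroni polynomial versus `(1-u)^e`. -/
lemma bonf (e : ℕ) : ∃ K : ℝ, 0 ≤ K ∧ ∀ u : ℝ, 0 ≤ u → u ≤ 1 →
    1 - (e : ℝ) * u + (e : ℝ) * ((e : ℝ) - 1) / 2 * u ^ 2 ≤ (1 - u) ^ e + K * u ^ 3 := by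
  induction e with
  | zero => exact ⟨0, le_refl _, fun u _ _ => by simp⟩
  | succ e ih =>
    obtain ⟨K, hK, h⟩ := ih
    have he : 0 ≤ (e : ℝ) * ((e : ℝ) - 1) / 2 := by
      rcases Nat.eq_zero_or_pos e with h0 | h0
      · simp [h0]
      · have : (1 : ℝ) ≤ e := by exact_mod_cast h0
        have : 0 ≤ (e : ℝ) - 1 := by linarith
        positivity
    refine ⟨K + (e : ℝ) * ((e : ℝ) - 1) / 2, by positivity, fun u hu hu1 => ?_⟩
    have h1 := mul_le_mul_of_nonneg_left (h u hu hu1) (by linarith : 0 ≤ 1 - u)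
    have h2 : 0 ≤ K * u ^ 4 := by positivity
    have h3 : (1 - u) ^ (e + 1) = (1 - u) * (1 - u) ^ e := by ring
    rw [h3]
    push_cast
    linarith [h1, h2]

/-- The parameter `m`. -/
def mm (k : ℕ) : ℕ := (k + 1) ^ 2 + 1

/-- Index set of size `(k+1)^5`. -/
abbrev II (k : ℕ) : Type := Fin 5 → Fin (k + 1)

/-- Vertex set of the template graph. -/
abbrev WW (k : ℕ) : Type := II k → Fin (mm k)

/-- Template graph. -/
def HH (k : ℕ) : SimpleGraph (WW k) := T (II k) (Fin (mm k))

/-- Edge density of the template. -/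
noncomputable def q (k : ℕ) : ℝ := (1 - 1 / (mm k : ℝ)) ^ ((k + 1) ^ 5)

/-- Normalised density in the template. -/
noncomputable def sH (k : ℕ) {j : ℕ} (F : SimpleGraph (Fin j)) : ℝ :=
  (hom F (HH k) : ℝ) / (Fintype.card (WW k) : ℝ) ^ j / q k ^ (Nat.card F.edgeSet)

lemma mm_ge (k : ℕ) : 2 ≤ mm k := by
  unfold mm
  have : 1 ≤ (k + 1) ^ 2 := Nat.one_le_pow _ _ (by omega)
  omega

instance (k : ℕ) : Nonempty (Fin (mm k)) := ⟨⟨0, by have := mm_ge k; omega⟩⟩

lemma sH_eq (k : ℕ) {j : ℕ} (F : SimpleGraph (Fin j)) :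
    sH k F = ((hom F (⊤ : SimpleGraph (Fin (mm k))) : ℝ) / (mm k : ℝ) ^ j /
      (1 - 1 / (mm k : ℝ)) ^ (Nat.card F.edgeSet)) ^ ((k + 1) ^ 5) := by
  unfold sH HH q
  rw [hom_T]
  have h1 : Fintype.card (II k) = (k + 1) ^ 5 := by simp
  have h2 : Fintype.card (WW k) = (mm k) ^ ((k + 1) ^ 5) := by simp
  rw [h1, h2]
  push_cast
  rw [div_pow, div_pow, ← pow_mul, ← pow_mul, ← pow_mul, ← pow_mul]
  rw [mul_comm j, mul_comm (Nat.card F.edgeSet)]

lemma u_facts (k : ℕ) : 0 < 1 / (mm k : ℝ) ∧ 1 / (mm k : ℝ) ≤ 1 / 2 ∧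
    (1 / (mm k : ℝ)) ^ 3 * ((k : ℝ) + 1) ^ 5 ≤ 1 / ((k : ℝ) + 1) := by
  have h2 : (2 : ℝ) ≤ mm k := by exact_mod_cast mm_ge k
  have hmm : (mm k : ℝ) = ((k : ℝ) + 1) ^ 2 + 1 := by unfold mm; push_cast; ring
  refine ⟨by positivity, ?_, ?_⟩
  · exact one_div_le_one_div_of_le (by norm_num) h2
  · have hk : (0 : ℝ) < (k : ℝ) + 1 := by positivity
    have h3 : 1 / (mm k : ℝ) ≤ 1 / ((k : ℝ) + 1) ^ 2 := by
      apply one_div_le_one_div_of_le (by positivity)
      rw [hmm]; linarith
    have h4 : (1 / (mm k : ℝ)) ^ 3 ≤ (1 / ((k : ℝ) + 1) ^ 2) ^ 3 :=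
      pow_le_pow_left₀ (by positivity) h3 3
    calc (1 / (mm k : ℝ)) ^ 3 * ((k : ℝ) + 1) ^ 5
        ≤ (1 / ((k : ℝ) + 1) ^ 2) ^ 3 * ((k : ℝ) + 1) ^ 5 :=
          mul_le_mul_of_nonneg_right h4 (by positivity)
      _ = 1 / ((k : ℝ) + 1) := by field_simp

lemma sH_nonneg (k : ℕ) {j : ℕ} (F : SimpleGraph (Fin j)) : 0 ≤ sH k F := by
  rw [sH_eq]
  obtain ⟨h1, h2, -⟩ := u_facts k
  have : 0 ≤ 1 - 1 / (mm k : ℝ) := by linarith
  positivity

lemma sH_le {j : ℕ} (F : SimpleGraph (Fin j)) :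
    ∃ C : ℝ, 0 ≤ C ∧ ∀ k, sH k F ≤ Real.exp (C / ((k : ℝ) + 1)) := by
  obtain ⟨K, hK, hb⟩ := bonf (Nat.card F.edgeSet)
  set e := Nat.card F.edgeSet with he
  refine ⟨K * 2 ^ e, by positivity, fun k => ?_⟩
  obtain ⟨h1, h2, h3⟩ := u_facts k
  rw [sH_eq]
  set u : ℝ := 1 / (mm k : ℝ) with hu
  have hm2 : (2 : ℝ) ≤ mm k := by exact_mod_cast mm_ge k
  have hmpos : (0 : ℝ) < (mm k : ℝ) ^ j := by positivity
  have hup := hom_top_le (α := Fin (mm k)) F
  rw [Fintype.card_fin, Fintype.card_fin, ← he, ← hu] at hup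
  have hb' := hb u h1.le (by linarith)
  have hhalf : (1 / 2 : ℝ) ^ e ≤ (1 - u) ^ e :=
    pow_le_pow_left₀ (by norm_num) (by linarith) e
  have hpos : 0 < (1 - u) ^ e := lt_of_lt_of_le (by positivity) hhalf
  have hA : (hom F (⊤ : SimpleGraph (Fin (mm k))) : ℝ) / (mm k : ℝ) ^ j / (1 - u) ^ e
      ≤ 1 + K * 2 ^ e * u ^ 3 := by
    rw [div_le_iff₀ hpos, div_le_iff₀ hmpos]
    refine hup.trans ?_
    rw [mul_comm]
    refine mul_le_mul_of_nonneg_right (hb'.trans ?_) hmpos.le
    have : K * u ^ 3 ≤ K * 2 ^ e * u ^ 3 * (1 - u) ^ e := by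
      have h5 : (1 : ℝ) ≤ 2 ^ e * (1 - u) ^ e := by
        calc (1 : ℝ) = 2 ^ e * (1 / 2) ^ e := by rw [← mul_pow]; norm_num
          _ ≤ 2 ^ e * (1 - u) ^ e := mul_le_mul_of_nonneg_left hhalf (by positivity)
      have h6 : 0 ≤ K * u ^ 3 := by positivity
      nlinarith [mul_le_mul_of_nonneg_left h5 h6]
    linarith
  have hA0 : 0 ≤ (hom F (⊤ : SimpleGraph (Fin (mm k))) : ℝ) / (mm k : ℝ) ^ j / (1 - u) ^ e := by
    positivity
  refine (pow_le_pow_left₀ hA0 hA _).trans ?_
  have h7 : 1 + K * 2 ^ e * u ^ 3 ≤ Real.exp (K * 2 ^ e * u ^ 3) := by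
    have := Real.add_one_le_exp (K * 2 ^ e * u ^ 3)
    linarith
  refine (pow_le_pow_left₀ (by positivity) h7 _).trans ?_
  rw [← Real.exp_nat_mul]
  apply Real.exp_le_exp.2
  push_cast
  have h8 : 0 ≤ K * 2 ^ e := by positivity
  calc ((k : ℝ) + 1) ^ 5 * (K * 2 ^ e * u ^ 3)
      = K * 2 ^ e * (u ^ 3 * ((k : ℝ) + 1) ^ 5) := by ring
    _ ≤ K * 2 ^ e * (1 / ((k : ℝ) + 1)) := mul_le_mul_of_nonneg_left h3 h8
    _ = K * 2 ^ e / ((k : ℝ) + 1) := by ring

lemma card_C4 : Nat.card (SimpleGraph.cycleGraph 4).edgeSet = 4 := by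
  rw [Nat.card_eq_fintype_card, ← SimpleGraph.edgeFinset_card]
  decide

lemma card_K3 : Nat.card (⊤ : SimpleGraph (Fin 3)).edgeSet = 3 := by
  rw [Nat.card_eq_fintype_card, ← SimpleGraph.edgeFinset_card]
  decide

lemma card_K2 : Nat.card (⊤ : SimpleGraph (Fin 2)).edgeSet = 1 := by
  rw [Nat.card_eq_fintype_card, ← SimpleGraph.edgeFinset_card]
  decide

lemma sH_C4 (k : ℕ) : 1 ≤ sH k (SimpleGraph.cycleGraph 4) := by
  rw [sH_eq, card_C4]
  obtain ⟨h1, h2, -⟩ := u_facts k
  have hm2 : (2 : ℝ) ≤ mm k := by exact_mod_cast mm_ge k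
  apply one_le_pow₀
  have hpos : 0 < (1 - 1 / (mm k : ℝ)) ^ 4 := by
    have : 0 < 1 - 1 / (mm k : ℝ) := by linarith
    positivity
  rw [le_div_iff₀ hpos, le_div_iff₀ (by positivity)]
  refine le_trans (le_of_eq ?_) (hom_C4_ge (mm k) (mm_ge k))
  field_simp

lemma sH_K3 (k : ℕ) : sH k (⊤ : SimpleGraph (Fin 3)) ≤ Real.exp (-((k : ℝ) + 1)) := by
  rw [sH_eq, card_K3]
  obtain ⟨h1, h2, -⟩ := u_facts k
  have hm2 : (2 : ℝ) ≤ mm k := by exact_mod_cast mm_ge k
  have hmm : (mm k : ℝ) = ((k : ℝ) + 1) ^ 2 + 1 := by unfold mm; push_cast; ring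
  rw [hom_K3]
  have hd : ((mm k).descFactorial 3 : ℝ) = (mm k : ℝ) * ((mm k : ℝ) - 1) * ((mm k : ℝ) - 2) := by
    have h := mm_ge k
    simp only [Nat.descFactorial, Nat.sub_zero, mul_one]
    push_cast [Nat.cast_sub (show 1 ≤ mm k by omega), Nat.cast_sub h]
    ring
  rw [hd]
  have hk : (0 : ℝ) < (k : ℝ) + 1 := by positivity
  have hval : (mm k : ℝ) * ((mm k : ℝ) - 1) * ((mm k : ℝ) - 2) / (mm k : ℝ) ^ 3 /
      (1 - 1 / (mm k : ℝ)) ^ 3 = 1 - 1 / ((k : ℝ) + 1) ^ 4 := by
    have hm0 : (mm k : ℝ) ≠ 0 := by positivity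
    have hm1 : (mm k : ℝ) - 1 ≠ 0 := by
      have : 0 < (mm k : ℝ) - 1 := by linarith
      exact this.ne'
    have h9 : (1 : ℝ) - 1 / (mm k : ℝ) = ((mm k : ℝ) - 1) / (mm k : ℝ) := by
      field_simp
    rw [h9]
    have h10 : (mm k : ℝ) - 1 = ((k : ℝ) + 1) ^ 2 := by rw [hmm]; ring
    have h11 : (mm k : ℝ) - 2 = ((k : ℝ) + 1) ^ 2 - 1 := by rw [hmm]; ring
    rw [h11, h10]
    field_simp
    rw [hmm]
    ring
  rw [hval]
  have h12 : 1 - 1 / ((k : ℝ) + 1) ^ 4 ≤ Real.exp (-(1 / ((k : ℝ) + 1) ^ 4)) := by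
    have := Real.add_one_le_exp (-(1 / ((k : ℝ) + 1) ^ 4))
    linarith
  have h13 : 0 ≤ 1 - 1 / ((k : ℝ) + 1) ^ 4 := by
    have : 1 / ((k : ℝ) + 1) ^ 4 ≤ 1 := by
      rw [div_le_one (by positivity)]
      apply one_le_pow₀
      linarith [Nat.cast_nonneg (α := ℝ) k]
    linarith
  refine (pow_le_pow_left₀ h13 h12 _).trans ?_
  rw [← Real.exp_nat_mul]
  apply Real.exp_le_exp.2
  push_cast
  apply le_of_eq
  field_simp

section blowup

variable {W : Type*} [Fintype W] [Nonempty W]

/-- Class map. -/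
noncomputable def cls (W : Type*) [Fintype W] [Nonempty W] (i : ℕ) : W :=
  (Fintype.equivFin W).symm ⟨i % Fintype.card W, Nat.mod_lt _ Fintype.card_pos⟩

/-- Balanced blow-up on `Fin n`. -/
noncomputable def blow (H : SimpleGraph W) (n : ℕ) : SimpleGraph (Fin n) :=
  H.comap (fun i : Fin n => cls W (i : ℕ))

lemma cls_eq_iff (i : ℕ) (w : W) :
    cls W i = w ↔ i ≡ (Fintype.equivFin W w : ℕ) [MOD Fintype.card W] := by
  unfold cls
  rw [Equiv.symm_apply_eq, Fin.ext_iff]
  unfold Nat.ModEq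
  rw [Nat.mod_eq_of_lt (Fintype.equivFin W w).2]

lemma fib_card (n : ℕ) (w : W) :
    Nat.card {i : Fin n // cls W (i : ℕ) = w} = n / Fintype.card W +
      if (Fintype.equivFin W w : ℕ) % Fintype.card W < n % Fintype.card W then 1 else 0 := by
  classical
  rw [← Nat.count_modEq_card n Fintype.card_pos, Nat.count_eq_card_filter_range,
    Nat.card_eq_fintype_card, Fintype.card_subtype, Finset.card_filter, Finset.card_filter,
    Finset.sum_range]
  refine Finset.sum_congr rfl fun i _ => ?_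
  simp only [cls_eq_iff]

lemma tendsto_fib (w : W) :
    Tendsto (fun n : ℕ => (Nat.card {i : Fin n // cls W (i : ℕ) = w} : ℝ) / n) atTop
      (𝓝 (1 / (Fintype.card W : ℝ))) := by
  have h1 : Tendsto (fun n : ℕ => ((n / Fintype.card W : ℕ) : ℝ) / n) atTop
      (𝓝 (1 / (Fintype.card W : ℝ))) := by
    have h := (tendsto_nat_floor_mul_div_atTop (R := ℝ) (a := 1 / (Fintype.card W : ℝ))
      (by positivity)).comp tendsto_natCast_atTop_atTop
    refine h.congr fun n => ?_
    simp only [Function.comp]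
    congr 2
    rw [one_div_mul_eq_div, Nat.floor_div_eq_div]
  have h2 : Tendsto (fun n : ℕ => ((n / Fintype.card W : ℕ) : ℝ) / n + 1 / n) atTop
      (𝓝 (1 / (Fintype.card W : ℝ))) := by
    have h := h1.add (tendsto_one_div_atTop_nhds_zero_nat (𝕜 := ℝ))
    simpa using h
  refine tendsto_of_tendsto_of_tendsto_of_le_of_le h1 h2 (fun n => ?_) (fun n => ?_)
  · simp only
    rw [fib_card]
    apply div_le_div_of_nonneg_right _ (Nat.cast_nonneg n)
    exact_mod_cast Nat.le_add_right _ _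
  · simp only
    rw [fib_card, ← add_div]
    apply div_le_div_of_nonneg_right _ (Nat.cast_nonneg n)
    push_cast
    gcongr
    split_ifs <;> simp

lemma hom_blow (H : SimpleGraph W) (n k : ℕ) (F : SimpleGraph (Fin k))
    [Fintype {ψ : Fin k → W // ∀ a b, F.Adj a b → H.Adj (ψ a) (ψ b)}] :
    hom F (blow H n) = ∑ ψ : {ψ : Fin k → W // ∀ a b, F.Adj a b → H.Adj (ψ a) (ψ b)},
      ∏ v : Fin k, Nat.card {i : Fin n // cls W (i : ℕ) = ψ.1 v} := by
  classical
  have e : {f : Fin k → Fin n // ∀ a b, F.Adj a b → (blow H n).Adj (f a) (f b)} ≃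
      (Σ ψ : {ψ : Fin k → W // ∀ a b, F.Adj a b → H.Adj (ψ a) (ψ b)},
        ∀ v : Fin k, {i : Fin n // cls W (i : ℕ) = ψ.1 v}) :=
    { toFun := fun f => ⟨⟨fun v => cls W (f.1 v : ℕ), fun a b hab => f.2 a b hab⟩,
        fun v => ⟨f.1 v, rfl⟩⟩
      invFun := fun q => ⟨fun v => (q.2 v).1, fun a b hab => by
        have h := q.1.2 a b hab
        rw [← (q.2 a).2, ← (q.2 b).2] at h
        exact h⟩
      left_inv := fun f => rfl
      right_inv := by
        rintro ⟨⟨ψ, hψ⟩, g⟩
        obtain ⟨i, h, rfl⟩ : ∃ (i : Fin k → Fin n) (h : ∀ v, cls W (i v : ℕ) = ψ v),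
            g = fun v => ⟨i v, h v⟩ := ⟨fun v => (g v).1, fun v => (g v).2, rfl⟩
        have h2 : ψ = fun v => cls W (i v : ℕ) := funext fun v => (h v).symm
        subst h2
        rfl }
  unfold hom
  rw [Nat.card_congr e, Nat.card_sigma]
  refine Finset.sum_congr rfl fun ψ _ => ?_
  rw [Nat.card_pi]

lemma tendsto_hom (H : SimpleGraph W) (k : ℕ) (F : SimpleGraph (Fin k)) :
    Tendsto (fun n : ℕ => (hom F (blow H n) : ℝ) / (n : ℝ) ^ k) atTop
      (𝓝 ((hom F H : ℝ) / (Fintype.card W : ℝ) ^ k)) := by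
  classical
  have h1 : ∀ n : ℕ, (hom F (blow H n) : ℝ) / (n : ℝ) ^ k =
      ∑ ψ : {ψ : Fin k → W // ∀ a b, F.Adj a b → H.Adj (ψ a) (ψ b)},
      ∏ v : Fin k, ((Nat.card {i : Fin n // cls W (i : ℕ) = ψ.1 v} : ℝ) / n) := by
    intro n
    rw [hom_blow]
    push_cast
    rw [Finset.sum_div]
    refine Finset.sum_congr rfl fun ψ _ => ?_
    rw [Finset.prod_div_distrib]
    simp
  simp_rw [h1]
  have h2 : (hom F H : ℝ) / (Fintype.card W : ℝ) ^ k =
      ∑ ψ : {ψ : Fin k → W // ∀ a b, F.Adj a b → H.Adj (ψ a) (ψ b)},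
      ∏ v : Fin k, (1 / (Fintype.card W : ℝ)) := by
    simp only [Finset.prod_const, Finset.card_univ, Fintype.card_fin, Finset.sum_const,
      nsmul_eq_mul]
    unfold hom
    rw [Nat.card_eq_fintype_card, one_div_pow]
    ring
  rw [h2]
  exact tendsto_finsetSum _ fun ψ _ => tendsto_finsetProd _ fun v _ => tendsto_fib (ψ.1 v)

lemma tendsto_desc (k : ℕ) :
    Tendsto (fun n : ℕ => (n.descFactorial k : ℝ) / (n : ℝ) ^ k) atTop (𝓝 1) := by
  induction k with
  | zero => simp
  | succ k ih =>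
    have h1 : Tendsto (fun n : ℕ => ((n - k : ℕ) : ℝ) / n) atTop (𝓝 1) := by
      have h2 : Tendsto (fun n : ℕ => (1 : ℝ) - (k : ℝ) * (1 / n)) atTop (𝓝 1) := by
        have h := (tendsto_one_div_atTop_nhds_zero_nat (𝕜 := ℝ)).const_mul (k : ℝ)
        have h' := h.const_sub 1
        simpa using h'
      refine h2.congr' ?_
      filter_upwards [eventually_ge_atTop (k + 1)] with n hn
      rw [Nat.cast_sub (by omega)]
      have : (n : ℝ) ≠ 0 := by
        have : 0 < n := by omega
        positivity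
      field_simp
    have h3 := h1.mul ih
    rw [one_mul] at h3
    refine h3.congr fun n => ?_
    rw [Nat.descFactorial_succ, pow_succ]
    push_cast
    rw [mul_comm ((n : ℝ) ^ k), mul_div_mul_comm]

omit [Fintype W] [Nonempty W] in
lemma emb_le_hom {n k : ℕ} (F : SimpleGraph (Fin k)) (G : SimpleGraph (Fin n)) :
    emb F G ≤ hom F G := by
  classical
  unfold emb hom
  rw [Nat.card_eq_fintype_card, Nat.card_eq_fintype_card, Fintype.card_subtype,
    Fintype.card_subtype]
  apply Finset.card_le_card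
  intro f hf
  simp only [Finset.mem_filter, Finset.mem_univ, true_and] at hf ⊢
  exact hf.2

omit [Fintype W] [Nonempty W] in
lemma hom_le_emb {n k : ℕ} (F : SimpleGraph (Fin k)) (G : SimpleGraph (Fin n)) :
    hom F G + n.descFactorial k ≤ emb F G + n ^ k := by
  classical
  have hinj : (Finset.univ.filter fun f : Fin k → Fin n => Function.Injective f).card
      = n.descFactorial k := by
    rw [← Fintype.card_subtype, Fintype.card_congr (Equiv.subtypeInjectiveEquivEmbedding _ _),
      Fintype.card_embedding_eq]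
    simp
  have htot : (Finset.univ.filter fun f : Fin k → Fin n => Function.Injective f).card +
      (Finset.univ.filter fun f : Fin k → Fin n => ¬ Function.Injective f).card = n ^ k := by
    rw [Finset.card_filter_add_card_filter_not]
    simp
  unfold emb hom
  rw [Nat.card_eq_fintype_card, Nat.card_eq_fintype_card, Fintype.card_subtype,
    Fintype.card_subtype]
  have hsub : (Finset.univ.filter fun f : Fin k → Fin n => ∀ a b, F.Adj a b → G.Adj (f a) (f b))
      ⊆ (Finset.univ.filter fun f : Fin k → Fin n =>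
        Function.Injective f ∧ ∀ a b, F.Adj a b → G.Adj (f a) (f b)) ∪
        (Finset.univ.filter fun f : Fin k → Fin n => ¬ Function.Injective f) := by
    intro f hf
    simp only [Finset.mem_filter, Finset.mem_univ, true_and, Finset.mem_union] at hf ⊢
    by_cases h : Function.Injective f
    · exact Or.inl ⟨h, hf⟩
    · exact Or.inr h
  have h := (Finset.card_le_card hsub).trans (Finset.card_union_le _ _)
  omega

lemma tendsto_emb (H : SimpleGraph W) (k : ℕ) (F : SimpleGraph (Fin k)) :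
    Tendsto (fun n : ℕ => (emb F (blow H n) : ℝ) / (n.descFactorial k : ℝ)) atTop
      (𝓝 ((hom F H : ℝ) / (Fintype.card W : ℝ) ^ k)) := by
  have h1 := tendsto_hom H k F
  have h2 := tendsto_desc k
  have h3 : Tendsto (fun n : ℕ => (hom F (blow H n) : ℝ) / (n : ℝ) ^ k -
      (1 - (n.descFactorial k : ℝ) / (n : ℝ) ^ k)) atTop
      (𝓝 ((hom F H : ℝ) / (Fintype.card W : ℝ) ^ k)) := by
    have := h1.sub (h2.const_sub 1)
    simpa using this
  have h4 : Tendsto (fun n : ℕ => (emb F (blow H n) : ℝ) / (n : ℝ) ^ k) atTop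
      (𝓝 ((hom F H : ℝ) / (Fintype.card W : ℝ) ^ k)) := by
    refine tendsto_of_tendsto_of_tendsto_of_le_of_le' h3 h1 ?_ ?_
    · filter_upwards [eventually_gt_atTop 0] with n hn
      have hn' : (0 : ℝ) < (n : ℝ) ^ k := by positivity
      rw [← sub_nonneg]
      have : (emb F (blow H n) : ℝ) / (n : ℝ) ^ k - ((hom F (blow H n) : ℝ) / (n : ℝ) ^ k -
          (1 - (n.descFactorial k : ℝ) / (n : ℝ) ^ k)) =
          ((emb F (blow H n) : ℝ) + (n : ℝ) ^ k - (hom F (blow H n) : ℝ) -
            (n.descFactorial k : ℝ)) / (n : ℝ) ^ k := by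
        field_simp
        ring
      rw [this]
      apply div_nonneg _ hn'.le
      have h5 : ((hom F (blow H n) + n.descFactorial k : ℕ) : ℝ) ≤
          ((emb F (blow H n) + n ^ k : ℕ) : ℝ) := by exact_mod_cast hom_le_emb F (blow H n)
      push_cast at h5
      linarith
    · filter_upwards with n
      apply div_le_div_of_nonneg_right _ (by positivity)
      exact_mod_cast emb_le_hom F (blow H n)
  have h5 := h4.div h2 one_ne_zero
  rw [div_one] at h5
  refine h5.congr' ?_
  filter_upwards [eventually_gt_atTop 0] with n hn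
  have hn' : (n : ℝ) ^ k ≠ 0 := by positivity
  simp only [Pi.div_apply]
  rw [div_div_div_cancel_right₀ hn']

omit [Fintype W] [Nonempty W] in
lemma emb_K2 {n : ℕ} (G : SimpleGraph (Fin n)) :
    emb (⊤ : SimpleGraph (Fin 2)) G = 2 * Nat.card G.edgeSet := by
  classical
  have e : {f : Fin 2 → Fin n // Function.Injective f ∧
      ∀ a b, (⊤ : SimpleGraph (Fin 2)).Adj a b → G.Adj (f a) (f b)} ≃ G.Dart :=
    { toFun := fun f => ⟨(f.1 0, f.1 1), f.2.2 0 1 (by decide)⟩
      invFun := fun d => ⟨![d.fst, d.snd], by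
        constructor
        · intro i j hij
          have := d.adj.ne
          fin_cases i <;> fin_cases j <;> simp_all
        · intro i j hij
          have := d.adj
          have := d.adj.symm
          fin_cases i <;> fin_cases j <;> simp_all⟩
      left_inv := fun f => by
        apply Subtype.ext
        funext i
        fin_cases i <;> rfl
      right_inv := fun d => rfl }
  unfold emb
  rw [Nat.card_congr e, Nat.card_eq_fintype_card, SimpleGraph.dart_card_eq_twice_card_edges,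
    Nat.card_eq_fintype_card, ← SimpleGraph.edgeFinset_card]

end blowup

/-- Edge density of the blow-up on `n` vertices. -/
noncomputable def pp {W : Type*} [Fintype W] [Nonempty W] (H : SimpleGraph W) (n : ℕ) : ℝ :=
  (Nat.card (blow H n).edgeSet : ℝ) / (n.choose 2 : ℝ)

lemma q_pos (k : ℕ) : 0 < q k := by
  unfold q
  obtain ⟨h1, h2, -⟩ := u_facts k
  have : 0 < 1 - 1 / (mm k : ℝ) := by linarith
  positivity

lemma tendsto_pp (k : ℕ) : Tendsto (fun n => pp (HH k) n) atTop (𝓝 (q k)) := by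
  have h := tendsto_emb (HH k) 2 (⊤ : SimpleGraph (Fin 2))
  have hq : (hom (⊤ : SimpleGraph (Fin 2)) (HH k) : ℝ) / (Fintype.card (WW k) : ℝ) ^ 2 = q k := by
    unfold HH q
    rw [hom_T, hom_K2]
    have h1 : Fintype.card (II k) = (k + 1) ^ 5 := by simp
    have h2 : Fintype.card (WW k) = (mm k) ^ ((k + 1) ^ 5) := by simp
    rw [h1, h2]
    push_cast
    rw [← pow_mul, mul_comm _ 2, pow_mul, ← div_pow]
    congr 1
    have h := mm_ge k
    have hm0 : (mm k : ℝ) ≠ 0 := by
      have : 0 < mm k := by omega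
      positivity
    simp only [Nat.descFactorial, Nat.sub_zero, mul_one]
    push_cast [Nat.cast_sub (show 1 ≤ mm k by omega)]
    field_simp
  rw [hq] at h
  refine h.congr fun n => ?_
  unfold pp
  rw [emb_K2, Nat.descFactorial_eq_factorial_mul_choose]
  push_cast [Nat.factorial]
  rw [mul_div_mul_left _ _ (two_ne_zero)]

lemma tendsto_s (k : ℕ) {j : ℕ} (F : SimpleGraph (Fin j)) :
    Tendsto (fun n => s (pp (HH k) n) F (blow (HH k) n)) atTop (𝓝 (sH k F)) := by
  have h1 := tendsto_emb (HH k) j F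
  have h2 := (tendsto_pp k).pow (Nat.card F.edgeSet)
  have h3 := h1.div h2 (pow_ne_zero _ (q_pos k).ne')
  refine h3.congr fun n => ?_
  unfold s
  simp only [Pi.div_apply]
  rw [div_div]

/-- The event that the `n`-vertex blow-up of the `k`-th template is close to its limit. -/
def Good (k n : ℕ) : Prop :=
  2 ≤ n ∧ 0 < Nat.card (blow (HH k) n).edgeSet ∧
  (∀ j ∈ Set.Iic k, ∀ F : SimpleGraph (Fin j),
    |s (pp (HH k) n) F (blow (HH k) n) - sH k F| ≤ 1 / ((k : ℝ) + 1)) ∧
  Real.log (1 / pp (HH k) n) / Real.log n ≤ 1 / ((k : ℝ) + 1)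

lemma good_eventually (k : ℕ) : ∀ᶠ n in atTop, Good k n := by
  have hk : (0 : ℝ) < 1 / ((k : ℝ) + 1) := by positivity
  have h1 : ∀ᶠ n : ℕ in atTop, 2 ≤ n := eventually_ge_atTop 2
  have h2 : ∀ᶠ n in atTop, 0 < Nat.card (blow (HH k) n).edgeSet := by
    filter_upwards [(tendsto_pp k).eventually (lt_mem_nhds (q_pos k))] with n hn
    by_contra h0
    have h0' : Nat.card (blow (HH k) n).edgeSet = 0 := by omega
    unfold pp at hn
    rw [h0'] at hn
    simp at hn
  have h3 : ∀ᶠ n in atTop, ∀ j ∈ Set.Iic k, ∀ F : SimpleGraph (Fin j),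
      |s (pp (HH k) n) F (blow (HH k) n) - sH k F| ≤ 1 / ((k : ℝ) + 1) := by
    rw [Filter.eventually_all_finite (Set.finite_Iic k)]
    intro j _
    rw [Filter.eventually_all]
    intro F
    have h := (tendsto_s k F).sub_const (sH k F)
    rw [sub_self] at h
    have h' := h.abs
    rw [abs_zero] at h'
    exact (h'.eventually (gt_mem_nhds hk)).mono fun n hn => hn.le
  have h4 : ∀ᶠ n : ℕ in atTop, Real.log (1 / pp (HH k) n) / Real.log n ≤ 1 / ((k : ℝ) + 1) := by
    have h5 : Tendsto (fun n => Real.log (1 / pp (HH k) n)) atTop (𝓝 (Real.log (1 / q k))) := by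
      have h6 : Tendsto (fun n => 1 / pp (HH k) n) atTop (𝓝 (1 / q k)) :=
        tendsto_const_nhds.div (tendsto_pp k) (q_pos k).ne'
      exact h6.log (by have := q_pos k; positivity)
    have h7 : Tendsto (fun n : ℕ => Real.log (n : ℝ)) atTop atTop :=
      Real.tendsto_log_atTop.comp tendsto_natCast_atTop_atTop
    have h8 := h5.div_atTop h7
    exact (h8.eventually (gt_mem_nhds hk)).mono fun n hn => hn.le
  filter_upwards [h1, h2, h3, h4] with n a b c d
  exact ⟨a, b, c, d⟩

/-- Diagonal choice. -/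
lemma diag (P : ℕ → ℕ → Prop) (h : ∀ k, ∀ᶠ n in atTop, P k n) :
    ∃ κ : ℕ → ℕ, Tendsto κ atTop atTop ∧ ∀ᶠ n in atTop, P (κ n) n := by
  classical
  choose N hN using fun k => eventually_atTop.1 (h k)
  refine ⟨fun n => Nat.findGreatest (fun k => N k ≤ n) n, ?_, ?_⟩
  · rw [tendsto_atTop]
    intro K
    filter_upwards [eventually_ge_atTop (max K (N K))] with n hn
    exact Nat.le_findGreatest ((le_max_left _ _).trans hn) ((le_max_right _ _).trans hn)
  · filter_upwards [eventually_ge_atTop (N 0)] with n hn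
    apply hN
    exact Nat.findGreatest_spec (P := fun k => N k ≤ n) (Nat.zero_le n) hn

theorem result :
    ∃ (p : ℕ → ℝ) (G : ∀ n : ℕ, SimpleGraph (Fin n)),
      (∀ n, 0 < p n ∧ p n ≤ 1) ∧
      Tendsto (fun n : ℕ => Real.log (1 / p n) / Real.log n) atTop (𝓝 0) ∧
      (∀ n, (Nat.card (G n).edgeSet : ℝ) = p n * (n.choose 2 : ℝ)) ∧
      Tendsto (fun n => s (p n) (SimpleGraph.cycleGraph 4) (G n)) atTop (𝓝 1) ∧
      (∀ (k : ℕ) (F : SimpleGraph (Fin k)), BddAbove (Set.range fun n => s (p n) F (G n))) ∧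
      Tendsto (fun n => s (p n) (⊤ : SimpleGraph (Fin 3)) (G n)) atTop (𝓝 0) := by
  classical
  obtain ⟨κ, hκ, hgood⟩ := diag Good good_eventually
  set G : ∀ n : ℕ, SimpleGraph (Fin n) := fun n =>
    if Good (κ n) n then blow (HH (κ n)) n else ⊤ with hG
  set p : ℕ → ℝ := fun n =>
    if 2 ≤ n then (Nat.card (G n).edgeSet : ℝ) / (n.choose 2 : ℝ) else 1 with hp
  have hκ' : Tendsto (fun n => (κ n : ℝ) + 1) atTop atTop :=
    tendsto_atTop_add_const_right _ _ (tendsto_natCast_atTop_atTop.comp hκ)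
  have hinv : Tendsto (fun n => 1 / ((κ n : ℝ) + 1)) atTop (𝓝 0) := by
    refine hκ'.inv_tendsto_atTop.congr fun n => ?_
    simp
  -- on good indices
  have hGgood : ∀ n, Good (κ n) n → G n = blow (HH (κ n)) n := fun n h => by
    simp only [hG, if_pos h]
  have hpgood : ∀ n, Good (κ n) n → p n = pp (HH (κ n)) n := fun n h => by
    simp only [hp, if_pos h.1]
    unfold pp
    rw [hGgood n h]
  have hle : ∀ n, Nat.card (G n).edgeSet ≤ n.choose 2 := by
    intro n
    rw [Nat.card_eq_fintype_card, ← SimpleGraph.edgeFinset_card]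
    simpa using (G n).card_edgeFinset_le_card_choose_two
  have hpos : ∀ n, 2 ≤ n → 0 < Nat.card (G n).edgeSet := by
    intro n hn
    by_cases h : Good (κ n) n
    · rw [hGgood n h]; exact h.2.1
    · have : G n = ⊤ := by simp only [hG, if_neg h]
      rw [this, Nat.card_eq_fintype_card, ← SimpleGraph.edgeFinset_card,
        SimpleGraph.card_edgeFinset_top_eq_card_choose_two, Fintype.card_fin]
      exact Nat.choose_pos hn
  have hsgood : ∀ n, Good (κ n) n → ∀ {j : ℕ} (F : SimpleGraph (Fin j)), j ≤ κ n →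
      |s (p n) F (G n) - sH (κ n) F| ≤ 1 / ((κ n : ℝ) + 1) := by
    intro n h j F hj
    rw [hpgood n h, hGgood n h]
    exact h.2.2.1 j hj F
  have hp01 : ∀ n, 0 < p n ∧ p n ≤ 1 := by
    intro n
    by_cases hn : 2 ≤ n
    · simp only [hp, if_pos hn]
      have h1 : (0 : ℝ) < (n.choose 2 : ℝ) := by exact_mod_cast Nat.choose_pos hn
      constructor
      · have : (0 : ℝ) < (Nat.card (G n).edgeSet : ℝ) := by exact_mod_cast hpos n hn
        positivity
      · rw [div_le_one h1]
        exact_mod_cast hle n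
    · simp only [hp, if_neg hn]
      norm_num
  refine ⟨p, G, hp01, ?_, ?_, ?_, ?_, ?_⟩
  · -- log condition
    refine squeeze_zero' ?_ ?_ hinv
    · filter_upwards [eventually_ge_atTop 1] with n hn
      apply div_nonneg
      · apply Real.log_nonneg
        rw [le_div_iff₀ (hp01 n).1, one_mul]
        exact (hp01 n).2
      · apply Real.log_nonneg
        exact_mod_cast hn
    · filter_upwards [hgood] with n hn
      rw [hpgood n hn]
      exact hn.2.2.2
  · intro n
    by_cases hn : 2 ≤ n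
    · simp only [hp, if_pos hn]
      have h1 : (0 : ℝ) < (n.choose 2 : ℝ) := by exact_mod_cast Nat.choose_pos hn
      field_simp
    · simp only [hp, if_neg hn]
      have h1 : n.choose 2 = 0 := Nat.choose_eq_zero_of_lt (by omega)
      have h2 := hle n
      rw [h1] at h2 ⊢
      have h3 : Nat.card (G n).edgeSet = 0 := by omega
      rw [h3]
      simp
  · -- C4
    obtain ⟨C, hC, hup⟩ := sH_le (SimpleGraph.cycleGraph 4)
    have hlow : Tendsto (fun n => 1 - 1 / ((κ n : ℝ) + 1)) atTop (𝓝 1) := by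
      simpa using hinv.const_sub 1
    have hhigh : Tendsto (fun n => Real.exp (C / ((κ n : ℝ) + 1)) + 1 / ((κ n : ℝ) + 1))
        atTop (𝓝 1) := by
      have h1 : Tendsto (fun n => C / ((κ n : ℝ) + 1)) atTop (𝓝 0) := by
        have := hinv.const_mul C
        rw [mul_zero] at this
        refine this.congr fun n => ?_
        rw [mul_one_div]
      have h2 := (Real.continuous_exp.tendsto 0).comp h1
      rw [Real.exp_zero] at h2
      have := h2.add hinv
      simpa using this
    refine tendsto_of_tendsto_of_tendsto_of_le_of_le' hlow hhigh ?_ ?_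
    · filter_upwards [hgood, hκ.eventually_ge_atTop 4] with n hn hn4
      have h := abs_le.1 (hsgood n hn (SimpleGraph.cycleGraph 4) hn4)
      have := sH_C4 (κ n)
      linarith [h.1]
    · filter_upwards [hgood, hκ.eventually_ge_atTop 4] with n hn hn4
      have h := abs_le.1 (hsgood n hn (SimpleGraph.cycleGraph 4) hn4)
      have := hup (κ n)
      linarith [h.2]
  · intro k F
    obtain ⟨C, hC, hup⟩ := sH_le F
    apply Filter.IsBoundedUnder.bddAbove_range
    refine ⟨Real.exp C + 1, ?_⟩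
    rw [Filter.eventually_map]
    filter_upwards [hgood, hκ.eventually_ge_atTop k] with n hn hnk
    have h := abs_le.1 (hsgood n hn F hnk)
    have h1 := hup (κ n)
    have h2 : C / ((κ n : ℝ) + 1) ≤ C := by
      apply div_le_self hC
      linarith [Nat.cast_nonneg (α := ℝ) (κ n)]
    have h3 := Real.exp_le_exp.2 h2
    have h4 : 1 / ((κ n : ℝ) + 1) ≤ 1 := by
      rw [div_le_one (by positivity)]
      linarith [Nat.cast_nonneg (α := ℝ) (κ n)]
    linarith [h.2]
  · -- K3
    have hhigh : Tendsto (fun n => Real.exp (-((κ n : ℝ) + 1)) + 1 / ((κ n : ℝ) + 1))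
        atTop (𝓝 0) := by
      have h1 := Real.tendsto_exp_neg_atTop_nhds_zero.comp hκ'
      have := h1.add hinv
      simpa using this
    refine squeeze_zero' ?_ ?_ hhigh
    · filter_upwards with n
      unfold s
      have := (hp01 n).1
      positivity
    · filter_upwards [hgood, hκ.eventually_ge_atTop 3] with n hn hn3
      have h := abs_le.1 (hsgood n hn (⊤ : SimpleGraph (Fin 3)) hn3)
      have := sH_K3 (κ n)
      linarith [h.2]

end Pool.Agent.Results.MP_e47ff0_co.TensorPowerBlowup
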